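import Mathlib
import Pool.Agent.N682.MS.Stm

/-!
# Project MS (helper682), part KEY (helper595): dimension count for almost invariant vectors
-/

set_option autoImplicit false

namespace Pool.Agent.N595.MS

open Finset
open Pool.Agent.N682.MS
open Pool.Agent.W661.RC (Mk)

/-- the coefficient of the Markov operator -/
noncomputable def ck (k : ℕ) : ℝ := 1 / (2 * (2 * k + 1))

theorem ck_pos (k : ℕ) : 0 < ck k := by unfold ck; positivity

theorem ck_eq (k : ℕ) : 2 * (2 * k + 1) * ck k = 1 := by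
  unfold ck
  have : (2 * (2 * (k : ℝ) + 1)) ≠ 0 := by positivity
  field_simp

theorem ck_half (k : ℕ) : ck k ≤ 1 / 2 := by
  have h := ck_eq k
  have h1 := ck_pos k
  have h2 : (0 : ℝ) ≤ k * ck k := by positivity
  nlinarith

theorem k_ck (k : ℕ) : k * ck k ≤ 1 / 4 := by
  have h := ck_eq k
  have h1 := ck_pos k
  nlinarith

section
variable {k : ℕ} {H : Type} [NormedAddCommGroup H] [InnerProductSpace ℂ H] [CompleteSpace H]

theorem inv_apply (ρ : FreeGroup (Fin k) →* unitary (H →L[ℂ] H)) (g : FreeGroup (Fin k)) :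
    (ρ g⁻¹ : H →L[ℂ] H) = ContinuousLinearMap.adjoint (ρ g : H →L[ℂ] H) := by
  rw [map_inv, ← Unitary.star_eq_inv, Unitary.coe_star, ContinuousLinearMap.star_eq_adjoint]

theorem mk_apply (ρ : FreeGroup (Fin k) →* unitary (H →L[ℂ] H)) (v : H) :
    Mk ρ v = ((1 / 2 : ℝ) : ℂ) • v + ((ck k : ℝ) : ℂ) • (v + ∑ s,
      ((ρ (FreeGroup.of s) : H →L[ℂ] H) v + (ρ (FreeGroup.of s)⁻¹ : H →L[ℂ] H) v)) := by
  unfold Mk ck
  simp

theorem mk_symm (ρ : FreeGroup (Fin k) →* unitary (H →L[ℂ] H)) (x y : H) :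
    inner ℂ (Mk ρ x) y = inner ℂ x (Mk ρ y) := by
  rw [mk_apply, mk_apply]
  simp only [inner_add_left, inner_add_right, inner_smul_left, inner_smul_right, sum_inner, inner_sum,
    Complex.conj_ofReal]
  congr 3
  refine Finset.sum_congr rfl fun s _ => ?_
  rw [inv_apply, ContinuousLinearMap.adjoint_inner_left, ContinuousLinearMap.adjoint_inner_right,
    add_comm]

theorem dsp_eq (ρ : FreeGroup (Fin k) →* unitary (H →L[ℂ] H)) (v : H) :
    ck k * Dsp ρ v = ‖v‖ ^ 2 - RCLike.re (inner ℂ v (Mk ρ v)) := by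
  have h1 : RCLike.re (inner ℂ v (Mk ρ v)) = 1 / 2 * ‖v‖ ^ 2 + ck k * (‖v‖ ^ 2 +
      ∑ s, 2 * RCLike.re (inner ℂ ((ρ (FreeGroup.of s) : H →L[ℂ] H) v) v)) := by
    rw [mk_apply]
    simp only [inner_add_right, inner_smul_right, inner_sum]
    have h2 : ∀ s : Fin k, inner ℂ v ((ρ (FreeGroup.of s)⁻¹ : H →L[ℂ] H) v) =
        inner ℂ ((ρ (FreeGroup.of s) : H →L[ℂ] H) v) v := by
      intro s
      rw [inv_apply, ContinuousLinearMap.adjoint_inner_right]
    simp only [h2]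
    have h3 : inner ℂ v v = ((‖v‖ ^ 2 : ℝ) : ℂ) := by
      rw [inner_self_eq_norm_sq_to_K]
      push_cast
      rfl
    rw [h3]
    have h4 : ∀ s : Fin k, RCLike.re (inner ℂ v ((ρ (FreeGroup.of s) : H →L[ℂ] H) v)) =
        RCLike.re (inner ℂ ((ρ (FreeGroup.of s) : H →L[ℂ] H) v) v) := fun s => inner_re_symm _ _
    simp only [RCLike.re_to_complex] at h4 ⊢
    rw [Complex.add_re, Complex.re_ofReal_mul, Complex.re_ofReal_mul, Complex.add_re, Complex.ofReal_re,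
      Complex.re_sum]
    congr 3
    refine Finset.sum_congr rfl fun s _ => ?_
    rw [Complex.add_re, h4]
    ring
  have h2 : Dsp ρ v = ∑ s : Fin k, (2 * ‖v‖ ^ 2 -
      2 * RCLike.re (inner ℂ ((ρ (FreeGroup.of s) : H →L[ℂ] H) v) v)) := by
    unfold Dsp
    refine Finset.sum_congr rfl fun s _ => ?_
    rw [@norm_sub_sq ℂ, Unitary.norm_map]
    ring
  rw [h1, h2, Finset.sum_sub_distrib, Finset.sum_const, card_univ, Fintype.card_fin, nsmul_eq_mul]
  have h3 := ck_eq k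
  linear_combination ((1 / 2) * ‖v‖ ^ 2) * h3

theorem dsp_nonneg (ρ : FreeGroup (Fin k) →* unitary (H →L[ℂ] H)) (v : H) : 0 ≤ Dsp ρ v := by
  unfold Dsp
  positivity

/-- the displacements of two vectors -/
theorem dsp_le (ρ : FreeGroup (Fin k) →* unitary (H →L[ℂ] H)) (u v : H) :
    Dsp ρ u ≤ 2 * Dsp ρ v + 8 * k * ‖u - v‖ ^ 2 := by
  unfold Dsp
  rw [Finset.mul_sum]
  have h1 : (8 * k * ‖u - v‖ ^ 2 : ℝ) = ∑ _s : Fin k, 8 * ‖u - v‖ ^ 2 := by
    rw [Finset.sum_const, card_univ, Fintype.card_fin, nsmul_eq_mul]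
    ring
  rw [h1, ← Finset.sum_add_distrib]
  refine Finset.sum_le_sum fun s _ => ?_
  have h2 : ‖(ρ (FreeGroup.of s) : H →L[ℂ] H) u - u‖ ≤
      ‖(ρ (FreeGroup.of s) : H →L[ℂ] H) v - v‖ + 2 * ‖u - v‖ := by
    have e : (ρ (FreeGroup.of s) : H →L[ℂ] H) u - u =
        ((ρ (FreeGroup.of s) : H →L[ℂ] H) v - v) +
          ((ρ (FreeGroup.of s) : H →L[ℂ] H) (u - v) - (u - v)) := by
      rw [map_sub]; abel
    rw [e]
    refine (norm_add_le _ _).trans ?_
    have h3 := norm_sub_le ((ρ (FreeGroup.of s) : H →L[ℂ] H) (u - v)) (u - v)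
    rw [Unitary.norm_map] at h3
    linarith
  have h3 := norm_nonneg ((ρ (FreeGroup.of s) : H →L[ℂ] H) u - u)
  have h4 := norm_nonneg ((ρ (FreeGroup.of s) : H →L[ℂ] H) v - v)
  have h5 := norm_nonneg (u - v)
  nlinarith [sq_nonneg (‖(ρ (FreeGroup.of s) : H →L[ℂ] H) v - v‖ - 2 * ‖u - v‖)]

end

section
variable {H : Type} [NormedAddCommGroup H] [InnerProductSpace ℂ H] {n : ℕ}

/-- the orthogonal projection on the span of a part of an orthonormal basis -/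
noncomputable def PJ (b : OrthonormalBasis (Fin n) ℂ H) (J : Finset (Fin n)) : H →L[ℂ] H :=
  ∑ i ∈ J, (innerSL ℂ (b i)).smulRight (b i)

theorem pj_apply (b : OrthonormalBasis (Fin n) ℂ H) (J : Finset (Fin n)) (v : H) :
    PJ b J v = ∑ i ∈ J, inner ℂ (b i) v • b i := by
  unfold PJ
  simp

open Classical in
theorem inner_pj (b : OrthonormalBasis (Fin n) ℂ H) (J : Finset (Fin n)) (v : H) (j : Fin n) :
    inner ℂ (b j) (PJ b J v) = if j ∈ J then inner ℂ (b j) v else 0 := by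
  rw [pj_apply, inner_sum]
  have h1 : ∀ i ∈ J, inner ℂ (b j) (inner ℂ (b i) v • b i) =
      if i = j then inner ℂ (b j) v else 0 := by
    intro i _
    rw [inner_smul_right, orthonormal_iff_ite.1 b.orthonormal j i]
    by_cases h : i = j
    · subst h; simp
    · rw [if_neg h, if_neg (fun h' => h h'.symm), mul_zero]
  rw [Finset.sum_congr rfl h1, Finset.sum_ite_eq']

theorem pj_pj (b : OrthonormalBasis (Fin n) ℂ H) (J : Finset (Fin n)) (v : H) :
    PJ b J (PJ b J v) = PJ b J v := by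
  classical
  rw [pj_apply b J (PJ b J v)]
  conv_rhs => rw [pj_apply]
  refine Finset.sum_congr rfl fun i hi => ?_
  rw [inner_pj, if_pos hi]

open Classical in
theorem norm_pj (b : OrthonormalBasis (Fin n) ℂ H) (J : Finset (Fin n)) (v : H) :
    ‖PJ b J v‖ ^ 2 = ∑ i, if i ∈ J then ‖inner ℂ (b i) v‖ ^ 2 else 0 := by
  rw [← b.sum_sq_norm_inner_right]
  refine Finset.sum_congr rfl fun i _ => ?_
  rw [inner_pj]
  split_ifs
  · rfl
  · simp

open Classical in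
theorem norm_sub_pj (b : OrthonormalBasis (Fin n) ℂ H) (J : Finset (Fin n)) (v : H) :
    ‖v - PJ b J v‖ ^ 2 = ∑ i, if i ∈ J then 0 else ‖inner ℂ (b i) v‖ ^ 2 := by
  rw [← b.sum_sq_norm_inner_right]
  refine Finset.sum_congr rfl fun i _ => ?_
  rw [inner_sub_right, inner_pj]
  split_ifs
  · simp
  · simp

theorem norm_split (b : OrthonormalBasis (Fin n) ℂ H) (J : Finset (Fin n)) (v : H) :
    ‖v‖ ^ 2 = ‖PJ b J v‖ ^ 2 + ‖v - PJ b J v‖ ^ 2 := by
  classical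
  rw [norm_pj, norm_sub_pj, ← Finset.sum_add_distrib, ← b.sum_sq_norm_inner_right]
  refine Finset.sum_congr rfl fun i _ => ?_
  split_ifs <;> simp

end

theorem t_key : S_KEY := by
  classical
  intro k κ hκ
  refine ⟨4 + 8 / κ, by positivity, fun ε ω hε hεκ hω => ?_⟩
  have hc := ck_pos k
  set c := ck k with hcdef
  refine ⟨c * min ω ε, by positivity, ?_⟩
  intro H _ _ _ _ ρ T hGp hT u
  set M : H →ₗ[ℂ] H := (Mk ρ : H →L[ℂ] H).toLinearMap with hM
  have hsym : M.IsSymmetric := fun x y => mk_symm ρ x y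
  set b := hsym.eigenvectorBasis rfl with hb
  set lam := hsym.eigenvalues rfl with hlam
  have hbe : ∀ i, Mk ρ (b i) = ((lam i : ℝ) : ℂ) • b i := fun i =>
    hsym.apply_eigenvectorBasis rfl i
  -- coordinates
  have hco : ∀ v i, inner ℂ (b i) (Mk ρ v) = ((lam i : ℝ) : ℂ) * inner ℂ (b i) v := by
    intro v i
    rw [← mk_symm, hbe, inner_smul_left, Complex.conj_ofReal]
  have hdsp : ∀ v, c * Dsp ρ v = ∑ i, (1 - lam i) * ‖inner ℂ (b i) v‖ ^ 2 := by
    intro v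
    rw [hcdef, dsp_eq, ← b.sum_sq_norm_inner_right v]
    have h1 : RCLike.re (inner ℂ v (Mk ρ v)) = ∑ i, lam i * ‖inner ℂ (b i) v‖ ^ 2 := by
      rw [← b.sum_inner_mul_inner v (Mk ρ v), map_sum]
      refine Finset.sum_congr rfl fun i _ => ?_
      rw [hco, ← inner_conj_symm v (b i)]
      have h2 : (starRingEnd ℂ) (inner ℂ (b i) v) * (((lam i : ℝ) : ℂ) * inner ℂ (b i) v) =
          ((lam i * ‖inner ℂ (b i) v‖ ^ 2 : ℝ) : ℂ) := by
        have h3 := Complex.conj_mul' (inner ℂ (b i) v)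
        push_cast
        rw [← h3]
        ring
      rw [h2]
      exact Complex.ofReal_re _
    rw [h1, ← Finset.sum_sub_distrib]
    refine Finset.sum_congr rfl fun i _ => ?_
    ring
  have hlam1 : ∀ i, lam i ≤ 1 := by
    intro i
    have h1 := dsp_eq ρ (b i)
    rw [hbe, inner_smul_right, inner_self_eq_norm_sq_to_K, b.norm_eq_one] at h1
    have h2 : 0 ≤ ck k * Dsp ρ (b i) := mul_nonneg hc.le (dsp_nonneg ρ _)
    rw [h1] at h2
    simp at h2
    exact h2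
  set J := univ.filter (fun i => 1 - κ < lam i) with hJ
  have hJ1 : ∀ i ∈ J, 1 - c * min ω ε ≤ lam i := by
    intro i hi
    rw [hJ, mem_filter] at hi
    rcases hGp (lam i) (b i) (by
      intro h0
      have := b.norm_eq_one i
      rw [h0, norm_zero] at this
      exact zero_ne_one this) (hbe i) with h | h
    · linarith [hi.2]
    · exact h
  have hJ2 : ∀ i, i ∉ J → κ ≤ 1 - lam i := by
    intro i hi
    rw [hJ, mem_filter, not_and] at hi
    have := hi (mem_univ i)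
    linarith
  set P := PJ b J with hP
  -- (1)
  have h1 : ∀ v, P v = v → Dsp ρ v ≤ min ω ε * ‖v‖ ^ 2 := by
    intro v hv
    have h2 : c * Dsp ρ v ≤ c * (min ω ε * ‖v‖ ^ 2) := by
      rw [hdsp, ← b.sum_sq_norm_inner_right v, Finset.mul_sum, Finset.mul_sum]
      refine Finset.sum_le_sum fun i _ => ?_
      by_cases hi : i ∈ J
      · have h3 := hJ1 i hi
        have h4 : (0 : ℝ) ≤ ‖inner ℂ (b i) v‖ ^ 2 := by positivity
        calc (1 - lam i) * ‖inner ℂ (b i) v‖ ^ 2 ≤ (c * min ω ε) * ‖inner ℂ (b i) v‖ ^ 2 :=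
              mul_le_mul_of_nonneg_right (by linarith) h4
          _ = _ := by ring
      · have h3 : inner ℂ (b i) v = 0 := by
          rw [← hv, hP, inner_pj, if_neg hi]
        rw [h3]
        simp
    exact le_of_mul_le_mul_left h2 hc
  -- (2)
  have h2 : ∀ z, κ * ‖z - P z‖ ^ 2 ≤ c * Dsp ρ z := by
    intro z
    rw [hdsp, hP, norm_sub_pj, Finset.mul_sum]
    refine Finset.sum_le_sum fun i _ => ?_
    have h4 : (0 : ℝ) ≤ ‖inner ℂ (b i) z‖ ^ 2 := by positivity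
    split_ifs with hi
    · rw [mul_zero]
      exact mul_nonneg (by linarith [hlam1 i]) h4
    · exact mul_le_mul_of_nonneg_right (hJ2 i hi) h4
  have hchalf : c ≤ 1 / 2 := ck_half k
  have hTn : ∀ x : H, ‖(T : H →L[ℂ] H) x‖ = ‖x‖ := fun x => Unitary.norm_map T x
  -- (3)
  have h3 : ∀ v, P v = v → κ * ‖(T : H →L[ℂ] H) v - P ((T : H →L[ℂ] H) v)‖ ^ 2 ≤
      c * (ε * ‖v‖ ^ 2) := by
    intro v hv
    refine (h2 _).trans (mul_le_mul_of_nonneg_left (hT v ?_) hc.le)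
    exact (h1 v hv).trans (mul_le_mul_of_nonneg_right (min_le_left _ _) (by positivity))
  have h3' : ∀ v, P v = v → ‖v‖ ^ 2 ≤ 2 * ‖P ((T : H →L[ℂ] H) v)‖ ^ 2 := by
    intro v hv
    have h4 := norm_split b J ((T : H →L[ℂ] H) v)
    rw [hTn] at h4
    have h5 := h3 v hv
    have h6 : κ * ‖(T : H →L[ℂ] H) v - P ((T : H →L[ℂ] H) v)‖ ^ 2 ≤ κ * (‖v‖ ^ 2 / 2) := by
      refine h5.trans ?_
      have h7 : (0 : ℝ) ≤ ‖v‖ ^ 2 := by positivity
      calc c * (ε * ‖v‖ ^ 2) ≤ 1 / 2 * (κ * ‖v‖ ^ 2) :=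
            mul_le_mul hchalf (mul_le_mul_of_nonneg_right hεκ h7) (by positivity) (by norm_num)
        _ = _ := by ring
    have h7 := le_of_mul_le_mul_left h6 hκ
    linarith
  -- (4)
  set E : Submodule ℂ H := LinearMap.range (P : H →L[ℂ] H).toLinearMap with hE
  have hEP : ∀ v ∈ E, P v = v := by
    rintro v ⟨w, rfl⟩
    exact pj_pj b J w
  set L : E →ₗ[ℂ] E := LinearMap.codRestrict E
    (((P : H →L[ℂ] H).comp (T : H →L[ℂ] H)).toLinearMap.comp E.subtype)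
    (fun v => ⟨(T : H →L[ℂ] H) v, rfl⟩) with hL
  have hLv : ∀ v : E, ((L v : E) : H) = P ((T : H →L[ℂ] H) v) := fun v => rfl
  have hinj : Function.Injective L := by
    rw [injective_iff_map_eq_zero]
    intro v hv
    have h4 := h3' v (hEP v v.2)
    rw [← hLv, hv] at h4
    simp at h4
    have h5 : ‖(v : H)‖ ^ 2 = 0 := le_antisymm (by simpa using h4) (by positivity)
    have h6 : (v : H) = 0 := by
      rw [← norm_eq_zero]
      exact pow_eq_zero_iff (two_ne_zero) |>.1 h5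
    exact Subtype.ext h6
  have hsur : Function.Surjective L := LinearMap.injective_iff_surjective.1 hinj
  obtain ⟨v, hv⟩ := hsur ⟨P ((T : H →L[ℂ] H) u), ⟨(T : H →L[ℂ] H) u, rfl⟩⟩
  have hv' : P ((T : H →L[ℂ] H) v) = P ((T : H →L[ℂ] H) u) := by
    rw [← hLv, hv]
  have hvE : P (v : H) = v := hEP v v.2
  have hvu : ‖(v : H)‖ ^ 2 ≤ 2 * ‖u‖ ^ 2 := by
    have h4 := h3' v hvE
    rw [hv'] at h4
    have h5 := norm_split b J ((T : H →L[ℂ] H) u)
    rw [hTn] at h5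
    have h6 : 0 ≤ ‖(T : H →L[ℂ] H) u - P ((T : H →L[ℂ] H) u)‖ ^ 2 := by positivity
    linarith
  have huv : κ * ‖u - v‖ ^ 2 ≤ 2 * (c * Dsp ρ ((T : H →L[ℂ] H) u)) + 4 * (c * (ε * ‖u‖ ^ 2)) := by
    have e : ‖u - v‖ = ‖((T : H →L[ℂ] H) u - P ((T : H →L[ℂ] H) u)) -
        ((T : H →L[ℂ] H) v - P ((T : H →L[ℂ] H) v))‖ := by
      rw [hv', ← hTn (u - v), map_sub]
      congr 1
      abel
    have h4 := h2 ((T : H →L[ℂ] H) u)
    have h5 := h3 v hvE
    have h6 := norm_sub_le ((T : H →L[ℂ] H) u - P ((T : H →L[ℂ] H) u))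
      ((T : H →L[ℂ] H) v - P ((T : H →L[ℂ] H) v))
    rw [← e] at h6
    set x := ‖(T : H →L[ℂ] H) u - P ((T : H →L[ℂ] H) u)‖
    set y := ‖(T : H →L[ℂ] H) v - P ((T : H →L[ℂ] H) v)‖
    have h7 : ‖u - v‖ ^ 2 ≤ 2 * x ^ 2 + 2 * y ^ 2 := by
      have := norm_nonneg (u - (v : H))
      nlinarith [sq_nonneg (x - y)]
    have h8 : c * (ε * ‖(v : H)‖ ^ 2) ≤ c * (ε * (2 * ‖u‖ ^ 2)) :=
      mul_le_mul_of_nonneg_left (mul_le_mul_of_nonneg_left hvu hε.le) hc.le
    have h9 : κ * ‖u - v‖ ^ 2 ≤ κ * (2 * x ^ 2 + 2 * y ^ 2) := mul_le_mul_of_nonneg_left h7 hκ.le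
    nlinarith
  -- (5)
  have h5 := dsp_le ρ u v
  have h6 := h1 v hvE
  have h7 : min ω ε * ‖(v : H)‖ ^ 2 ≤ ε * (2 * ‖u‖ ^ 2) :=
    mul_le_mul (min_le_right _ _) hvu (by positivity) hε.le
  set X := Dsp ρ ((T : H →L[ℂ] H) u) with hX
  have hX0 : 0 ≤ X := dsp_nonneg ρ _
  set Y := ‖u‖ ^ 2 with hY
  have hY0 : 0 ≤ Y := by positivity
  set Z := ‖u - (v : H)‖ ^ 2 with hZ
  have hk := k_ck k
  have hk0 : (0 : ℝ) ≤ k := Nat.cast_nonneg k
  -- 8 k Z ≤ (8k/κ)(2 c X + 4 c ε Y) ≤ (1/κ)(4 X + 8 ε Y)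
  have h8 : κ * (8 * k * Z) ≤ 4 * X + 8 * (ε * Y) := by
    have h9 : 8 * k * (κ * Z) ≤ 8 * k * (2 * (c * X) + 4 * (c * (ε * Y))) :=
      mul_le_mul_of_nonneg_left huv (by positivity)
    have h10 : (k * c) * X ≤ 1 / 4 * X := mul_le_mul_of_nonneg_right hk hX0
    have h11 : (k * c) * (ε * Y) ≤ 1 / 4 * (ε * Y) := mul_le_mul_of_nonneg_right hk (by positivity)
    nlinarith
  have h9 : 8 * k * Z ≤ (4 * X + 8 * (ε * Y)) / κ := by
    rw [le_div_iff₀ hκ]
    linarith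
  have h10 : (4 * X + 8 * (ε * Y)) / κ = 4 / κ * X + 8 / κ * (ε * Y) := by
    field_simp
  have h11 : 0 ≤ 4 / κ * X := by positivity
  have h12 : 8 / κ * X = 2 * (4 / κ * X) := by ring
  rw [h10] at h9
  have h13 : (4 + 8 / κ) * X + (4 + 8 / κ) * ε * Y = 4 * X + 2 * (4 / κ * X) + 4 * (ε * Y) +
      8 / κ * (ε * Y) := by ring
  rw [h13]
  linarith

end Pool.Agent.N595.MS
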